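import Pool.Agent.helper1.FI.SpecQ2

set_option autoImplicit false

namespace Pool.Agent.FI

open Pool.Agent.helper58.DC Pool.Agent.DI Pool.Agent.GR Pool.Agent.OB

theorem QH0 : QH0_stmt := by
  classical
  intro G _ _ D K w hw j hj ψ hψ
  let _ : Fintype G := Fintype.ofFinite G
  have key : ∀ t ∈ K, ∑ y : G, j (t⁻¹ * y * t * w⁻¹) * ψ y = ev ψ j w := by
    intro t ht
    unfold ev
    rw [finsum_eq_sum_of_fintype]
    -- substitution `y = t (x w) t⁻¹`
    let e : G ≃ G := ((Equiv.mulRight w).trans (MulAut.conj t).toEquiv)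
    have he : ∀ x, e x = t * (x * w) * t⁻¹ := fun x => rfl
    rw [← Equiv.sum_comp e (fun y => j (t⁻¹ * y * t * w⁻¹) * ψ y)]
    refine Finset.sum_congr rfl fun x _ => ?_
    have h1 : t⁻¹ * e x * t * w⁻¹ = x := by rw [he]; group
    rw [h1]
    by_cases hx : x ∈ K
    · congr 1
      rw [he, IrrOn_conj hψ ht]
      have h2 := IrrOn_conj hψ hw (x * w)
      rw [← h2]
      congr 1
      group
    · rw [hj x hx, zero_mul, zero_mul]
  unfold cc
  rw [finsum_eq_sum_of_fintype]
  have h1 : ∀ x : G, trL K D (fun y => j (y * w⁻¹)) x * ψ x =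
      (∑ t ∈ Finset.univ.filter (fun t => t ∈ K), j (t⁻¹ * x * t * w⁻¹) * ψ x) / Nat.card D := by
    intro x
    unfold trL
    have h2 : ∑ᶠ t ∈ (K : Set G), j (t⁻¹ * x * t * w⁻¹) =
        ∑ t ∈ Finset.univ.filter (fun t => t ∈ K), j (t⁻¹ * x * t * w⁻¹) := by
      rw [← finsum_mem_coe_finset]
      congr 1
      funext t
      simp
    rw [h2, div_mul_eq_mul_div, Finset.sum_mul]
  rw [Finset.sum_congr rfl (fun x _ => h1 x), ← Finset.sum_div, Finset.sum_comm,
    Finset.sum_congr rfl (fun t ht => key t (Finset.mem_filter.1 ht).2), Finset.sum_const, nsmul_eq_mul]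
  have h3 : (Finset.univ.filter (fun t => t ∈ K)).card = Nat.card K := by
    rw [Nat.card_eq_fintype_card, Fintype.card_subtype]
  rw [h3]
  ring

end Pool.Agent.FI
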